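import Mathlib

namespace Pool.Agent.Results.MP_0a0514_co.Counter

/-- A path in the digraph `(V, A)`: a nonempty list of distinct vertices, consecutive ones
joined by arcs. -/
def IsPath (V : Finset ℕ) (A : Finset (ℕ × ℕ)) (p : List ℕ) : Prop :=
  p ≠ [] ∧ p.Nodup ∧ (∀ v ∈ p, v ∈ V) ∧ p.IsChain (fun a b => (a, b) ∈ A)

/-- There is a routing from `X` to `T` in `(V, A)`. -/
def HasRouting (V : Finset ℕ) (A : Finset (ℕ × ℕ)) (X T : Finset ℕ) : Prop :=
  ∃ R : Set (List ℕ), (∀ p ∈ R, IsPath V A p) ∧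
    (∀ p ∈ R, ∀ q ∈ R, p ≠ q → ∀ v ∈ p, v ∉ q) ∧
    (∀ x ∈ X, ∃ p ∈ R, p.head? = some x) ∧ ∀ p ∈ R, ∃ t ∈ T, p.getLast? = some t

/-- `((V, A), T, E)` with `E = {0, ..., n-1}` is a standard representation of the uniform
matroid of rank `r` on `E`. -/
def StandardRep (r n : ℕ) (V : Finset ℕ) (A : Finset (ℕ × ℕ)) (T : Finset ℕ) : Prop :=
  (∀ a ∈ A, a.1 ∈ V ∧ a.2 ∈ V) ∧ Finset.range n ⊆ V ∧ T ⊆ Finset.range n ∧
    (∀ X ⊆ Finset.range n, HasRouting V A X T ↔ X.card ≤ r) ∧
    (∀ a ∈ A, a.1 ∉ T) ∧ ∀ a ∈ A, a.2 ∉ Finset.range n \ T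

/-- The arc-complexity of the uniform matroid `U_{r,n}`. -/
noncomputable def arcC (r n : ℕ) : ℕ :=
  sInf {k | ∃ V A T, StandardRep r n V A T ∧ A.card = k}

def A0 : Finset (ℕ × ℕ) :=
  {(3, 10), (3, 0), (4, 10), (4, 1), (5, 10), (5, 2), (6, 11), (6, 0), (7, 11), (7, 1), (8, 11),
    (8, 2), (9, 10), (9, 11), (10, 0), (10, 1), (10, 2), (11, 0), (11, 1), (11, 2)}

def cand (a : ℕ) : List (List ℕ) :=
  if a < 3 then [[a]]
  else if a < 6 then [[a, a - 3], [a, 10, 0], [a, 10, 1], [a, 10, 2]]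
  else if a < 9 then [[a, a - 6], [a, 11, 0], [a, 11, 1], [a, 11, 2]]
  else [[a, 10, 0], [a, 10, 1], [a, 10, 2], [a, 11, 0], [a, 11, 1], [a, 11, 2]]

def ok (p q : List ℕ) : Prop := p = q ∨ ∀ v ∈ p, v ∉ q

instance (p q : List ℕ) : Decidable (ok p q) := by unfold ok; infer_instance

instance (V A p) : Decidable (IsPath V A p) := by unfold IsPath; infer_instance

theorem cand_ok : ∀ a < 10, ∀ p ∈ cand a, IsPath (Finset.range 12) A0 p ∧ p.head? = some a ∧
    ∃ t ∈ Finset.range 3, p.getLast? = some t := by decide +kernel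

def tri (a b c : ℕ) : Prop := ∃ p ∈ cand a, ∃ q ∈ cand b, ok p q ∧ ∃ s ∈ cand c, ok p s ∧ ok q s

instance (a b c : ℕ) : Decidable (tri a b c) := by unfold tri; infer_instance

theorem triple : ∀ a < 10, ∀ b < 10, ∀ c < 10, tri a b c := by decide +kernel

theorem ok_symm {p q : List ℕ} (h : ok p q) : ok q p := by
  rcases h with h | h
  · exact Or.inl h.symm
  · exact Or.inr (fun v hv hp => h v hp hv)

theorem rep : StandardRep 3 10 (Finset.range 12) A0 (Finset.range 3) := by
  refine ⟨by decide +kernel, by decide +kernel, by decide +kernel, fun X hX => ⟨?_, fun h => ?_⟩,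
    by decide +kernel, by decide +kernel⟩
  · rintro ⟨R, -, h2, h3, h4⟩
    choose! p hp using h3
    choose! t ht using h4
    have : X.card ≤ (Finset.range 3).card := by
      refine Finset.card_le_card_of_injOn (fun x => t (p x)) (fun x hx => (ht _ (hp x hx).1).1) ?_
      intro x hx y hy e
      by_contra hne
      have e' : t (p x) = t (p y) := e
      have hpq : p x ≠ p y := fun g => hne (by
        have a := (hp x hx).2
        rw [g, (hp y hy).2] at a
        exact (Option.some.inj a).symm)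
      refine h2 _ (hp x hx).1 _ (hp y hy).1 hpq (t (p x))
        (List.mem_of_getLast? (ht _ (hp x hx).1).2) ?_
      rw [e']
      exact List.mem_of_getLast? (ht _ (hp y hy).1).2
    simpa using this
  · obtain ⟨Y, hY1, hY2, hY3⟩ := Finset.exists_subsuperset_card_eq (n := 3) hX h (by simp)
    obtain ⟨a, b, c, -, -, -, rfl⟩ := Finset.card_eq_three.1 hY3
    have ha : a < 10 := Finset.mem_range.1 (hY2 (by simp))
    have hb : b < 10 := Finset.mem_range.1 (hY2 (by simp))
    have hc : c < 10 := Finset.mem_range.1 (hY2 (by simp))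
    obtain ⟨p, hp, q, hq, o1, s, hs, o2, o3⟩ := triple a ha b hb c hc
    have P := cand_ok a ha p hp
    have Q := cand_ok b hb q hq
    have S := cand_ok c hc s hs
    refine ⟨{p, q, s}, ?_, ?_, ?_, ?_⟩
    · rintro x (rfl | rfl | rfl)
      exacts [P.1, Q.1, S.1]
    · rintro x (rfl | rfl | rfl) y (rfl | rfl | rfl) hne
      all_goals first
        | exact absurd rfl hne
        | exact o1.resolve_left hne
        | exact o2.resolve_left hne
        | exact o3.resolve_left hne
        | exact (ok_symm o1).resolve_left hne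
        | exact (ok_symm o2).resolve_left hne
        | exact (ok_symm o3).resolve_left hne
    · intro x hx
      have := hY1 hx
      simp only [Finset.mem_insert, Finset.mem_singleton] at this
      rcases this with rfl | rfl | rfl
      exacts [⟨p, by simp, P.2.1⟩, ⟨q, by simp, Q.2.1⟩, ⟨s, by simp, S.2.1⟩]
    · rintro x (rfl | rfl | rfl)
      exacts [P.2.2, Q.2.2, S.2.2]

theorem result : (∃ V A T, StandardRep 3 10 V A T ∧ A.card = 20) ∧ arcC 3 10 < 3 * (10 - 3) ∧
    ¬ ∀ r n : ℕ, r ≤ n → arcC r n = r * (n - r) := by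
  have h : ∃ V A T, StandardRep 3 10 V A T ∧ A.card = 20 := ⟨_, _, _, rep, by decide +kernel⟩
  have h' : arcC 3 10 ≤ 20 := Nat.sInf_le h
  refine ⟨h, by omega, fun g => ?_⟩
  have := g 3 10 (by norm_num)
  omega

end Pool.Agent.Results.MP_0a0514_co.Counter
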